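import Pool.Agent.H.MP_7fabd3_an.D

open MeasureTheory Set Filter Topology

namespace Pool.Agent.Results.MP_7fabd3_an.Counter

/-- logarithmic energy, normalised by a constant `D` exceeding the diameter -/
noncomputable def energy (D : ℝ) (ν : Measure ℝ) : ENNReal :=
  ∫⁻ x, ∫⁻ y, (if x = y then (⊤ : ENNReal) else ENNReal.ofReal (Real.log (D / |x - y|))) ∂ν ∂ν

theorem result : ∃ (l : ℕ) (α β : Fin (l + 1) → ℝ) (γ : Fin l → ℝ) (K : Set ℝ) (D : ℝ)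
    (ρ μ : Measure ℝ) (w : ℝ → ℝ) (n : ℕ) (P : Polynomial ℝ),
    (∀ j, α j < β j) ∧ (∀ j : Fin l, β j.castSucc < α j.succ) ∧
    (∀ j : Fin l, γ j ∈ Icc (β j.castSucc) (α j.succ)) ∧ K = ⋃ j, Icc (α j) (β j) ∧
    Metric.diam K < D ∧ IsProbabilityMeasure ρ ∧ ρ Kᶜ = 0 ∧ energy D ρ < ⊤ ∧
    (∀ ν : Measure ℝ, IsProbabilityMeasure ν → ν Kᶜ = 0 → energy D ρ ≤ energy D ν) ∧
    (∀ x ∈ ⋃ j, Ioo (α j) (β j), Tendsto (fun ε : ℝ =>
      (-(∏ j, ((x : ℂ) + ε * Complex.I - γ j)) /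
        ∏ j, (((x : ℂ) + ε * Complex.I - α j) ^ (1 / 2 : ℂ)
          * ((x : ℂ) + ε * Complex.I - β j) ^ (1 / 2 : ℂ))).im / Real.pi) (𝓝[>] 0) (𝓝 (w x))) ∧
    μ = (volume.restrict K).withDensity (fun x => ENNReal.ofReal (w x)) ∧ IsProbabilityMeasure μ ∧
    (∀ᵐ x ∂ρ, 0 < (μ.rnDeriv ρ x).toReal) ∧
    Integrable (fun x => Real.log (μ.rnDeriv ρ x).toReal) ρ ∧
    1 ≤ n ∧ P.Monic ∧ P.natDegree = n ∧ Integrable (fun x => P.eval x ^ 2) μ ∧
    (∫ x, P.eval x ^ 2 ∂μ) / (D * Real.exp (-(energy D ρ).toReal)) ^ (2 * n)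
      < 2 * Real.exp (∫ x, Real.log (μ.rnDeriv ρ x).toReal ∂ρ) := by
  open Pool.Agent.H.MP_7fabd3_an Pool.Agent.H.MP_7f7d18_an in
  have hE : energy 11 (dens (25 / 2)) = ENNReal.ofReal (Real.log 11 - Real.log 36 / 4) :=
    energy_rho.1
  have h3 : (3 : ℝ) ≤ √15 := Real.le_sqrt_of_sq_le (by norm_num)
  have h4 : √15 ≤ (4 : ℝ) := Real.sqrt_le_iff.2 ⟨by norm_num, by norm_num⟩
  have hK : ∀ᵐ x ∂dens (25 / 2), x ∈ KK := dens_K _
  refine ⟨2, al, be, ga, KK, 11, dens (25 / 2), dens 15, w 15, 1, Polynomial.X, ?_, ?_, ?_,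
    KK_union, KK_diam, inferInstance, dens_K _, hE ▸ ENNReal.ofReal_lt_top, energy_rho.2,
    fun x hx => boundary hx, rfl, inferInstance, ?_, log_ff.1.congr log_rn.symm, le_rfl,
    Polynomial.monic_X, Polynomial.natDegree_X,
    int_cont KK_compact (dens_K _) (Polynomial.X.continuous.pow 2), ?_⟩
  · intro j
    fin_cases j <;> norm_num [al, be]
  · intro j
    fin_cases j
    · exact (by norm_num : (-4 : ℝ) < -3)
    · exact (by norm_num : (3 : ℝ) < 4)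
  · intro j
    fin_cases j
    · exact ⟨neg_le_neg h4, neg_le_neg h3⟩
    · exact ⟨h3, h4⟩
  · filter_upwards [rn_eq, hK] with x h1 h2
    rw [h1, ENNReal.toReal_ofReal (ff_pos h2).le]
    exact ff_pos h2
  · simp only [Polynomial.eval_X]
    rw [mu_sq, hE, integral_congr_ae log_rn, log_ff.2]
    exact ineq

end Pool.Agent.Results.MP_7fabd3_an.Counter
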